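import Mathlib

set_option autoImplicit false

open Set

namespace Pool.Agent.H.MP_07c8c2_lc

universe u v

variable {P : Type u} [Preorder P] {X : Type v}

/-- p forces an existential statement: witnesses are forced densely below p -/
def Ex {ι : Sort*} (φ : ι → P → Prop) (p : P) : Prop := ∀ q ≤ p, ∃ r ≤ q, ∃ i, φ i r

/-- p forces that the ground model point x lies in the set named by A -/
def Mem (x : X) (A : Set (X × P)) : P → Prop := Ex fun t r => r ≤ t ∧ (x, t) ∈ A

/-- p forces that A and B name the same subset of X -/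
def Eqv (A B : Set (X × P)) (p : P) : Prop := ∀ x, ∀ q ≤ p, (Mem x A q ↔ Mem x B q)

/-- the moves f n, ..., f 0 -/
def hist {α : Type*} (f : ℕ → α) : ℕ → List α
  | 0 => [f 0]
  | n + 1 => f (n + 1) :: hist f n

lemma Ex.mono {ι : Sort*} {φ : ι → P → Prop} {p q : P} (h : Ex φ p) (e : q ≤ p) : Ex φ q :=
  fun r a => h r (a.trans e)

lemma Ex.reg {ι : Sort*} {φ : ι → P → Prop} {p : P} (h : ∀ q ≤ p, ∃ r ≤ q, Ex φ r) : Ex φ p :=
  fun q a => by
    obtain ⟨r, b, c⟩ := h q a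
    obtain ⟨s, d, e⟩ := c r le_rfl
    exact ⟨s, d.trans b, e⟩

variable [TopologicalSpace X]

/-- p forces that y is in the closure of the set named by A, in the topology generated by the
ground model open sets -/
def Cl (y : X) (A : Set (X × P)) (p : P) : Prop :=
  ∀ W, IsOpen W → y ∈ W → Ex (fun z r => z ∈ W ∧ Mem z A r) p

/-- II has a winning strategy in the strong countable fan tightness game at y -/
def Wins (y : X) : Prop := ∃ σ : List (Set X) → X, ∀ f : ℕ → Set X,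
  (∀ n, (∀ k ≤ n, y ∈ closure (f k)) → σ (hist f n) ∈ f n) ∧
    ((∀ n, y ∈ closure (f n)) → y ∈ closure (range fun n => σ (hist f n)))

/-- R l z q reads: q forces that the strategy answers z to the list l of moves of I; all
conditions force that this strategy is a winning strategy of II at y -/
structure FWins (y : X) (R : List (Set (X × P)) → X → P → Prop) : Prop where
  mono : ∀ l z p q, R l z p → q ≤ p → R l z q
  reg : ∀ l z p, (∀ q ≤ p, ∃ r ≤ q, R l z r) → R l z p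
  ext : ∀ l m z p, List.Forall₂ (fun A B => Eqv A B p) l m → R l z p → R m z p
  single : ∀ l z w p, R l z p → R l w p → z = w
  total : ∀ A l p, (∀ B ∈ A :: l, Cl y B p) → Ex (fun z r => R (A :: l) z r ∧ Mem z A r) p
  win : ∀ (f : ℕ → Set (X × P)) p, (∀ n, Cl y (f n) p) → ∀ W, IsOpen W → y ∈ W →
    Ex (fun (x : ℕ × X) r => R (hist f x.1) x.2 r ∧ x.2 ∈ W) p

lemma dual {y : X} (h : Wins y) : ∃ τ : List X → Set X, (∀ s, IsOpen (τ s) ∧ y ∈ τ s) ∧
    ∀ z : ℕ → X, z 0 ∈ τ [] → (∀ n, z (n + 1) ∈ τ (hist z n)) → y ∈ closure (range z) := by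
  obtain ⟨σ, h⟩ := h
  have k : ∀ l : List (Set X), ∃ W, IsOpen W ∧ y ∈ W ∧ ∀ z, ∃ A, y ∈ closure A ∧
      ((∀ A, y ∈ closure A → σ (A :: l) ∈ A) → z ∈ W → σ (A :: l) = z) := fun l => by
    by_contra! e
    choose z hz using fun W : {W // IsOpen W ∧ y ∈ W} => e W W.2.1 W.2.2
    have a : y ∈ closure (range z) := mem_closure_iff.2 fun W a b =>
      ⟨_, (hz ⟨W, a, b⟩ univ (subset_closure trivial)).2.1, mem_range_self _⟩
    obtain ⟨W, b⟩ := (hz ⟨univ, isOpen_univ, trivial⟩ _ a).1 _ a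
    exact (hz W _ a).2.2 b.symm
  choose W w1 w2 A a1 a2 using k
  let L : List X → List (Set X) := List.rec [] fun z _ l => A l z :: l
  refine ⟨fun s => W (L s), fun s => ⟨w1 _, w2 _⟩, fun z z0 z1 => ?_⟩
  let f : ℕ → Set X := fun n => Nat.casesOn n (A [] (z 0)) fun n => A (L (hist z n)) (z (n + 1))
  have e : ∀ n, hist f n = L (hist z n) := fun n => by
    induction n with
    | zero => rfl
    | succ n k => exact congrArg (f (n + 1) :: ·) k
  have c : ∀ n, y ∈ closure (f n) := by rintro (_ | n) <;> exact a1 _ _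
  refine closure_mono ?_ ((h f).2 c)
  rintro _ ⟨_ | n, rfl⟩
  · exact ⟨0, (a2 [] _ (fun B b => (h fun _ => B).1 0 fun _ _ => b) z0).symm⟩
  · refine ⟨n + 1, .symm ?_⟩
    simp only [e]
    refine a2 _ _ (fun B b => ?_) (z1 n)
    let g := Function.update f (n + 1) B
    have i : ∀ k ≤ n, hist g k = hist f k := fun k => by
      induction k with
      | zero => exact fun _ => by simp [hist, g]
      | succ k j => exact fun m => by simp [hist, g, j (by omega), show k ≠ n by omega]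
    have := (h g).1 (n + 1) fun k _ => by by_cases m : k = n + 1 <;> simp [g, m, b, c]
    simpa [hist, g, i n le_rfl, e] using this

theorem pres {y : X} (h : Wins y) : ∃ R : List (Set (X × P)) → X → P → Prop, FWins y R := by
  obtain ⟨τ, t1, t2⟩ := dual h
  let S : List (Set (X × P)) → List X → P → Prop := List.rec (fun s _ => s = []) fun A _ S s p =>
    ∃ z t, s = z :: t ∧ S t p ∧ z ∈ τ t ∧ Mem z A p ∧
      ∀ w ∈ τ t, WellOrderingRel w z → ∀ q ≤ p, ¬ Mem w A q
  have s1 : ∀ l s p q, S l s p → q ≤ p → S l s q := fun l => by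
    induction l with
    | nil => exact fun _ _ _ h _ => h
    | cons A l k => exact fun s p q ⟨z, t, a, b, c, d, e⟩ h =>
      ⟨z, t, a, k _ _ _ b h, c, d.mono h, fun w f g r i => e w f g r (i.trans h)⟩
  have s2 : ∀ l s t p, S l s p → S l t p → s = t := fun l => by
    induction l with
    | nil => exact fun _ _ _ a b => a.trans b.symm
    | cons A l k =>
      rintro _ _ p ⟨z, t, rfl, b, c, d, e⟩ ⟨w, s, rfl, f, g, i, j⟩
      cases k _ _ _ b f
      rcases trichotomous_of WellOrderingRel z w with m | rfl | m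
      exacts [(j z c m p le_rfl d).elim, rfl, (e w g m p le_rfl i).elim]
  have s3 : ∀ A l s p, Cl y A p → S l s p → ∃ q ≤ p, ∃ z, S (A :: l) (z :: s) q := by
    intro A l s p a b
    obtain ⟨q, c, z, d⟩ := a _ (t1 s).1 (t1 s).2 p le_rfl
    obtain ⟨w, ⟨e, r, f, g⟩, i⟩ := WellOrderingRel.isWellOrder.wf.has_min
      {z | z ∈ τ s ∧ ∃ q ≤ p, Mem z A q} ⟨z, d.1, q, c, d.2⟩
    exact ⟨r, f, w, w, s, rfl, s1 _ _ _ _ b f, e, g, fun x j k q m n => i x ⟨j, q, m.trans f, n⟩ k⟩
  have s4 : ∀ l p, (∀ A ∈ l, Cl y A p) → ∃ q ≤ p, ∃ s, S l s q := fun l => by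
    induction l with
    | nil => exact fun p _ => ⟨p, le_rfl, [], rfl⟩
    | cons A l k =>
      intro p a
      obtain ⟨q, b, s, c⟩ := k p fun B d => a B (.tail _ d)
      obtain ⟨r, d, z, e⟩ := s3 A l s q (fun W f g => (a A (.head _) W f g).mono b) c
      exact ⟨r, d.trans b, _, e⟩
  have s5 : ∀ l m p, List.Forall₂ (fun A B => Eqv A B p) l m → ∀ s, ∀ q ≤ p, S l s q → S m s q := by
    intro l m p h
    induction h with
    | nil => exact fun _ _ _ => id
    | cons a _ k => exact fun s q b ⟨z, t, c, d, e, f, g⟩ => ⟨z, t, c, k _ _ b d, e,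
      (a z q b).1 f, fun w i j r m n => g w i j r m ((a w r (m.trans b)).2 n)⟩
  refine ⟨fun l z => Ex fun s => S l (z :: s), fun l z p q a => a.mono, fun l z p => Ex.reg,
    fun l m z p a b q c => ?_, fun l z w p a b => ?_, fun A l p a q b => ?_,
      fun f p a W b c q d => ?_⟩
  · obtain ⟨r, d, s, e⟩ := b q c
    exact ⟨r, d, s, s5 _ _ _ a _ _ (d.trans c) e⟩
  · obtain ⟨q, c, s, d⟩ := a p le_rfl
    obtain ⟨r, e, t, f⟩ := b q c
    exact (List.cons.inj (s2 _ _ _ _ (s1 _ _ _ _ d e) f)).1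
  · obtain ⟨r, c, _, z, t, rfl, d⟩ := s4 _ q fun B c W e f => (a B c W e f).mono b
    exact ⟨r, c, z, fun s e => ⟨s, le_rfl, t, s1 (A :: l) _ _ _ ⟨z, t, rfl, d⟩ e⟩, d.2.2.1⟩
  by_contra! k
  have st : ∀ (n : ℕ) (x : P × List X), ∃ w : P × X, x.1 ≤ q → S (hist f n) x.2 x.1 →
      w.1 ≤ q ∧ S (hist f (n + 1)) (w.2 :: x.2) w.1 := fun n x => by
    by_cases e : x.1 ≤ q ∧ S (hist f n) x.2 x.1
    · obtain ⟨r, g, z, i⟩ := s3 _ _ _ _ (fun W b c => (a (n + 1) W b c).mono (e.1.trans d)) e.2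
      exact ⟨(r, z), fun _ _ => ⟨g.trans e.1, i⟩⟩
    · exact ⟨(q, y), fun a b => (e ⟨a, b⟩).elim⟩
  choose g hg using st
  obtain ⟨r, e, z, i⟩ := s3 _ [] [] q (fun W b c => (a 0 W b c).mono d) rfl
  let G : ℕ → P × List X := Nat.rec (r, [z]) fun n x => ((g n x).1, (g n x).2 :: x.2)
  let Z : ℕ → X := fun n => Nat.casesOn n z fun n => (g n (G n)).2
  have h1 : ∀ n, (G n).1 ≤ q ∧ S (hist f n) (G n).2 (G n).1 ∧ (G n).2 = hist Z n := fun n => by
    induction n with
    | zero => exact ⟨e, i, rfl⟩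
    | succ n j => exact ⟨(hg n _ j.1 j.2.1).1, (hg n _ j.1 j.2.1).2, congrArg (Z (n + 1) :: ·) j.2.2⟩
  obtain ⟨_, m, n, rfl⟩ := mem_closure_iff.1 (t2 Z (by
    obtain ⟨w, t, j, rfl, m, -⟩ := i
    cases j
    exact m) fun n => by
      obtain ⟨w, t, j, -, m, -⟩ := (h1 (n + 1)).2.1
      cases j
      exact (h1 n).2.2 ▸ m) W b c
  refine k _ (h1 n).1 (n, Z n) (fun s j => ⟨s, le_rfl, ?_⟩) m
  have := s1 _ _ _ _ (h1 n).2.1 j
  rw [(h1 n).2.2] at this
  cases n <;> exact ⟨_, this⟩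

end Pool.Agent.H.MP_07c8c2_lc
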